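import Mathlib
import Pool.Agent.H249R2.PM.Farkas

/-!
# Piercing partitions of the square grid into proper boxes

For every `k ≥ 2` a partition of `[n]²` into proper boxes such that every line meets at least `k`
of the boxes has at least `4 (k - 1)` boxes, and this is sharp for `n ≥ 2 (k - 1)`.

Proof of the lower bound. Let the boxes be `X b × Y b`. Let `α` be the largest total weight of a
nonnegative weight function `u` on the rows with `u (X b) ≤ 1` for all `b`. By duality there are
weights `z b ≥ 0` of total `α` such that the boxes meeting any row have total weight at least one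
and `u (X b) = 1` if `z b > 0`; as the boxes are proper, `α > 1`. Let `y` be a weight function on
the boxes with `z b = 0` for which the boxes meeting any column have total weight at least one. Two
different boxes do not share both a row and a column, so `|z| |y| ≥ |z| + |y|`, that is,
`|y| ≥ α / (α - 1)`. Again by duality there is a weight function `v` on the columns, of total
`α / (α - 1)`, with `v (Y b) ≤ 1` whenever `z b = 0`. Then
`0 ≤ ∑ b, (1 - u (X b)) (1 - v (Y b)) ≤ m - k |u| - k |v| + |u| |v|`, where `|u| |v| = |u| + |v|`, so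
`m ≥ (k - 1) (|u| + |v|) = (k - 1) (2 + p + 1 / p) ≥ 4 (k - 1)` with `p = α - 1`.
-/

set_option autoImplicit false

namespace Pool.Agent.Results.MP_21d1af_co.PiercingNumber

open Finset

/-- A proper box in `[n]²`: a product `X × Y` of nonempty proper subsets of `[n]`. -/
def IsProperBox {n : ℕ} (B : Finset (Fin n × Fin n)) : Prop :=
  ∃ X Y : Finset (Fin n), X.Nonempty ∧ Y.Nonempty ∧ X ≠ univ ∧ Y ≠ univ ∧ B = X ×ˢ Y

/-- `P` is a partition of `[n]²` into proper boxes. -/
def IsPartition {n : ℕ} (P : Finset (Finset (Fin n × Fin n))) : Prop :=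
  (∀ B ∈ P, IsProperBox B) ∧ ∀ x : Fin n × Fin n, ∃! B, B ∈ P ∧ x ∈ B

open Classical in
/-- Every line `{i} × [n]` meets at least `k` of the parts, and every line `[n] × {j}` at least `l`. -/
def Piercing {n : ℕ} (k l : ℕ) (P : Finset (Finset (Fin n × Fin n))) : Prop :=
  (∀ i, k ≤ (P.filter fun B => ∃ j, (i, j) ∈ B).card) ∧
    ∀ j, l ≤ (P.filter fun B => ∃ i, (i, j) ∈ B).card

/-- `p_box(n, 2, k)`: the least number of parts of a partition of `[n]²` into proper boxes with the
`k`-piercing property. -/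
noncomputable def pBox (n k : ℕ) : ℕ :=
  sInf {m | ∃ P : Finset (Finset (Fin n × Fin n)), IsPartition P ∧ Piercing k k P ∧ P.card = m}

/-! ### Duality for packing programs -/

theorem lp {I B : Type} [Fintype I] [Fintype B] (a : I → B → ℝ) (M : ℝ)
    (hM : ∀ u : I → ℝ, (∀ i, 0 ≤ u i) → (∀ b, ∑ i, u i * a i b ≤ 1) → ∑ i, u i ≤ M) :
    ∃ (u : I → ℝ) (z : B → ℝ), (∀ i, 0 ≤ u i) ∧ (∀ b, ∑ i, u i * a i b ≤ 1) ∧
      (∀ b, 0 ≤ z b) ∧ ∑ b, z b = ∑ i, u i ∧ (∀ i, 1 ≤ ∑ b, z b * a i b) ∧
      (∀ b, z b * (1 - ∑ i, u i * a i b) = 0) := by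
  classical
  set F : Set (I → ℝ) := {u | (∀ i, 0 ≤ u i) ∧ ∀ b, ∑ i, u i * a i b ≤ 1} with hF
  have hclosed : IsClosed F := by
    have h1 : F = (⋂ i, {u : I → ℝ | 0 ≤ u i}) ∩ ⋂ b, {u : I → ℝ | ∑ i, u i * a i b ≤ 1} := by
      ext u
      simp [hF]
    rw [h1]
    refine IsClosed.inter (isClosed_iInter fun i => ?_) (isClosed_iInter fun b => ?_)
    · exact isClosed_le continuous_const (continuous_apply i)
    · refine isClosed_le (continuous_finsetSum _ fun i _ => ?_) continuous_const
      exact (continuous_apply i).mul continuous_const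
  have hbd : F ⊆ Set.Icc (fun _ => (0 : ℝ)) (fun _ => M) := by
    intro u hu
    refine ⟨fun i => hu.1 i, fun i => ?_⟩
    exact (single_le_sum (fun i _ => hu.1 i) (mem_univ i)).trans (hM u hu.1 hu.2)
  have hcomp : IsCompact F := isCompact_Icc.of_isClosed_subset hclosed hbd
  have hne : F.Nonempty := ⟨fun _ => 0, by simp [hF]⟩
  have hcont : ContinuousOn (fun u : I → ℝ => ∑ i, u i) F :=
    (continuous_finsetSum _ fun i _ => continuous_apply i).continuousOn
  obtain ⟨u, huF, humax⟩ := hcomp.exists_isMaxOn hne hcont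
  let ell : B ⊕ I → ((I → ℝ) →ₗ[ℝ] ℝ) :=
    Sum.elim (fun b => ∑ i, a i b • LinearMap.proj i) (fun i => -LinearMap.proj i)
  let rhs : B ⊕ I → ℝ := Sum.elim (fun _ => 1) (fun _ => 0)
  have hell1 : ∀ (b : B) (x : I → ℝ), ell (Sum.inl b) x = ∑ i, x i * a i b := by
    intro b x
    simp [ell, LinearMap.sum_apply, mul_comm]
  have hell2 : ∀ (i : I) (x : I → ℝ), ell (Sum.inr i) x = - x i := by
    intro i x
    simp [ell]
  have hfeas : ∀ x : I → ℝ, (∀ t, ell t x ≤ rhs t) ↔ x ∈ F := by
    intro x
    constructor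
    · intro h
      refine ⟨fun i => ?_, fun b => ?_⟩
      · have := h (Sum.inr i)
        rw [hell2] at this
        simp only [rhs, Sum.elim_inr] at this
        linarith
      · have := h (Sum.inl b)
        rw [hell1] at this
        simpa only [rhs, Sum.elim_inl] using this
    · rintro ⟨h1, h2⟩ (b | i)
      · rw [hell1]
        simpa only [rhs, Sum.elim_inl] using h2 b
      · rw [hell2]
        simp only [rhs, Sum.elim_inr]
        linarith [h1 i]
  obtain ⟨w0, w, hw0, hw, hid⟩ := Pool.Agent.H249R2.PM.farkas_fin ell rhs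
    (∑ i, LinearMap.proj i) (∑ i, u i) u ((hfeas u).2 huF) (by
      intro x hx
      have h1 := humax ((hfeas x).1 hx)
      simpa [LinearMap.sum_apply] using h1)
  have hid' : ∀ x : I → ℝ, ∑ i, u i - ∑ i, x i = w0 +
      (∑ b, w (Sum.inl b) * (1 - ∑ i, x i * a i b) + ∑ i, w (Sum.inr i) * x i) := by
    intro x
    have h1 := hid x
    rw [Fintype.sum_sum_type] at h1
    simp only [hell1, hell2, rhs, Sum.elim_inl, Sum.elim_inr, LinearMap.sum_apply,
      LinearMap.proj_apply, zero_sub, neg_neg] at h1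
    exact h1
  have hu0 := hid' u
  rw [sub_self] at hu0
  have ht1 : ∀ b, 0 ≤ w (Sum.inl b) * (1 - ∑ i, u i * a i b) := fun b =>
    mul_nonneg (hw _) (by linarith [huF.2 b])
  have ht2 : ∀ i, 0 ≤ w (Sum.inr i) * u i := fun i => mul_nonneg (hw _) (huF.1 i)
  have hs1 : 0 ≤ ∑ b, w (Sum.inl b) * (1 - ∑ i, u i * a i b) := sum_nonneg fun b _ => ht1 b
  have hs2 : 0 ≤ ∑ i, w (Sum.inr i) * u i := sum_nonneg fun i _ => ht2 i
  have hw00 : w0 = 0 := by linarith
  have hs10 : ∑ b, w (Sum.inl b) * (1 - ∑ i, u i * a i b) = 0 := by linarith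
  refine ⟨u, fun b => w (Sum.inl b), huF.1, huF.2, fun b => hw _, ?_, ?_, ?_⟩
  · have h1 := hid' 0
    simp only [Pi.zero_apply, sum_const_zero, sub_zero, zero_mul, mul_one, mul_zero, add_zero,
      hw00, zero_add] at h1
    exact h1.symm
  · intro i
    have h1 := hid' (Pi.single i 1)
    have h2 : ∑ i', (Pi.single i (1 : ℝ) : I → ℝ) i' = 1 := by
      rw [Finset.sum_pi_single']
      simp
    have h3 : ∀ b, ∑ i', (Pi.single i (1 : ℝ) : I → ℝ) i' * a i' b = a i b := by
      intro b
      rw [Finset.sum_eq_single i]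
      · simp
      · intro i' _ hne'
        simp [Pi.single_eq_of_ne hne']
      · simp
    have h4 : ∑ i', w (Sum.inr i') * (Pi.single i (1 : ℝ) : I → ℝ) i' = w (Sum.inr i) := by
      rw [Finset.sum_eq_single i]
      · simp
      · intro i' _ hne'
        simp [Pi.single_eq_of_ne hne']
      · simp
    have h5 := hid' 0
    simp only [Pi.zero_apply, sum_const_zero, sub_zero, zero_mul, mul_one, mul_zero, add_zero,
      hw00, zero_add] at h5
    rw [h2, h4, hw00] at h1
    simp only [h3] at h1
    have h6 : ∑ b, w (Sum.inl b) * (1 - a i b) = ∑ b, w (Sum.inl b) -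
        ∑ b, w (Sum.inl b) * a i b := by
      rw [← sum_sub_distrib]
      exact sum_congr rfl fun b _ => by ring
    rw [h6] at h1
    linarith [hw (Sum.inr i)]
  · intro b
    exact (sum_eq_zero_iff_of_nonneg fun b _ => ht1 b).1 hs10 b (mem_univ b)

/-! ### The inequality -/

/-- Let the cells of a grid with rows `I` and columns `J` be partitioned into proper boxes
`X b × Y b`, every row meeting at least `k` and every column at least `l` of them. Then the number
of boxes is at least `(k - 1) (1 + p) + (l - 1) (1 + 1 / p)` for some `p > 0`. -/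
theorem ineq {I J B : Type} [Fintype I] [Fintype J] [Fintype B] [DecidableEq I] [DecidableEq J]
    (X : B → Finset I) (Y : B → Finset J) (hI : Nonempty I)
    (hpart : ∀ i j, ∃! b, i ∈ X b ∧ j ∈ Y b)
    (hX0 : ∀ b, (X b).Nonempty) (hY0 : ∀ b, (Y b).Nonempty) (hX : ∀ b, X b ≠ univ)
    (k l : ℝ) (hk : ∀ i, k ≤ ∑ b, if i ∈ X b then (1 : ℝ) else 0)
    (hl : ∀ j, l ≤ ∑ b, if j ∈ Y b then (1 : ℝ) else 0) (hJ : Nonempty J) :
    ∃ p : ℝ, 0 < p ∧ (k - 1) * (1 + p) + (l - 1) * (1 + 1 / p) ≤ Fintype.card B := by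
  classical
  set a : I → B → ℝ := fun i b => if i ∈ X b then (1 : ℝ) else 0 with ha
  set c : J → B → ℝ := fun j b => if j ∈ Y b then (1 : ℝ) else 0 with hc
  have ha0 : ∀ i b, 0 ≤ a i b := fun i b => by simp only [ha]; split_ifs <;> norm_num
  have hc0 : ∀ j b, 0 ≤ c j b := fun j b => by simp only [hc]; split_ifs <;> norm_num
  have hac : ∀ i j, ∑ b, a i b * c j b = 1 := by
    intro i j
    obtain ⟨b0, hb0, hu⟩ := hpart i j
    rw [sum_eq_single b0]
    · simp only [ha, hc]
      rw [if_pos hb0.1, if_pos hb0.2, one_mul]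
    · intro b _ hb
      simp only [ha, hc]
      by_cases h1 : i ∈ X b
      · by_cases h2 : j ∈ Y b
        · exact absurd (hu b ⟨h1, h2⟩) hb
        · rw [if_neg h2, mul_zero]
      · rw [if_neg h1, zero_mul]
    · intro h
      exact absurd (mem_univ _) h
  -- the first program
  obtain ⟨u, z, hu0, hu1, hz0, hzs, hz1, hcs⟩ := lp a (Fintype.card I) (by
    intro v hv0 hv1
    have h1 : ∀ i, v i ≤ 1 := by
      intro i
      obtain ⟨j⟩ := hJ
      obtain ⟨b, hb, -⟩ := hpart i j
      refine le_trans ?_ (hv1 b)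
      have h2 : v i * a i b ≤ ∑ i, v i * a i b :=
        single_le_sum (f := fun i => v i * a i b) (fun i _ => mul_nonneg (hv0 i) (ha0 i b))
          (mem_univ i)
      have h3 : a i b = 1 := by simp only [ha]; rw [if_pos hb.1]
      rw [h3, mul_one] at h2
      exact h2
    calc ∑ i, v i ≤ ∑ _i : I, (1 : ℝ) := sum_le_sum fun i _ => h1 i
      _ = Fintype.card I := by simp)
  set α : ℝ := ∑ i, u i with hα
  -- its value is larger than one
  have hα1 : 1 < α := by
    by_contra hcon
    push Not at hcon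
    obtain ⟨i0⟩ := hI
    have hex : ∃ b, 0 < z b := by
      by_contra hno
      push Not at hno
      have h1 := hz1 i0
      have h2 : ∑ b, z b * a i0 b = 0 := by
        apply sum_eq_zero
        intro b _
        rw [le_antisymm (hno b) (hz0 b), zero_mul]
      linarith
    obtain ⟨b, hb⟩ := hex
    apply hX b
    rw [eq_univ_iff_forall]
    intro i
    by_contra hi
    have h1 := hz1 i
    have h2 : ∑ b, z b * a i b < ∑ b, z b := by
      apply sum_lt_sum
      · intro b' _
        have : a i b' ≤ 1 := by simp only [ha]; split_ifs <;> norm_num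
        nlinarith [hz0 b']
      · refine ⟨b, mem_univ b, ?_⟩
        have : a i b = 0 := by simp only [ha]; rw [if_neg hi]
        rw [this, mul_zero]
        exact hb
    linarith
  have hα0 : 0 < α - 1 := by linarith
  -- the second program
  have hv : ∃ v : J → ℝ, (∀ j, 0 ≤ v j) ∧ (∀ b, z b = 0 → ∑ j, v j * c j b ≤ 1) ∧
      ∑ j, v j = α / (α - 1) := by
    have hge : ∃ v : J → ℝ, (∀ j, 0 ≤ v j) ∧ (∀ b, z b = 0 → ∑ j, v j * c j b ≤ 1) ∧
        α / (α - 1) ≤ ∑ j, v j := by
      by_contra hno
      push Not at hno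
      obtain ⟨v, y, hv0, hv1, hy0, hys, hy1, -⟩ :=
        lp (B := {b : B // z b = 0}) (fun j b => c j b.1) (α / (α - 1)) (by
          intro v hv0 hv1
          exact (hno v hv0 (fun b hb => hv1 ⟨b, hb⟩)).le)
      have hβ := hno v hv0 (fun b hb => hv1 ⟨b, hb⟩)
      set β : ℝ := ∑ j, v j with hβdef
      -- the product of the two values
      have key : β + α ≤ α * β := by
        have e1 : α * β = ∑ b : B, ∑ b' : {b : B // z b = 0}, z b * y b' := by
          rw [← hzs, ← hys, sum_mul_sum]
        let s : B → {b : B // z b = 0} → ℝ := fun b b' => if (X b ∩ X b'.1).Nonempty then 1 else 0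
        let t : B → {b : B // z b = 0} → ℝ := fun b b' => if (Y b ∩ Y b'.1).Nonempty then 1 else 0
        have e2 : ∀ (b : B) (b' : {b : B // z b = 0}),
            z b * y b' * s b b' + z b * y b' * t b b' ≤ z b * y b' := by
          intro b b'
          by_cases hbb : b = b'.1
          · rw [hbb, b'.2]
            simp
          · have hzy : 0 ≤ z b * y b' := mul_nonneg (hz0 b) (hy0 b')
            by_cases h1 : (X b ∩ X b'.1).Nonempty
            · have h2 : ¬ (Y b ∩ Y b'.1).Nonempty := by
                rintro ⟨j, hj⟩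
                obtain ⟨i, hi⟩ := h1
                rw [mem_inter] at hi hj
                exact hbb ((hpart i j).unique ⟨hi.1, hj.1⟩ ⟨hi.2, hj.2⟩)
              simp only [s, t, if_pos h1, if_neg h2]
              linarith
            · by_cases h2 : (Y b ∩ Y b'.1).Nonempty
              · simp only [s, t, if_neg h1, if_pos h2]
                linarith
              · simp only [s, t, if_neg h1, if_neg h2]
                linarith
        have e3 : β ≤ ∑ b : B, ∑ b' : {b : B // z b = 0}, z b * y b' * s b b' := by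
          rw [sum_comm, ← hys]
          apply sum_le_sum
          intro b' _
          obtain ⟨i, hi⟩ := hX0 b'.1
          have h1 : ∑ b, z b * a i b ≤ ∑ b, z b * s b b' := by
            apply sum_le_sum
            intro b _
            apply mul_le_mul_of_nonneg_left _ (hz0 b)
            simp only [ha, s]
            by_cases h2 : i ∈ X b
            · rw [if_pos h2, if_pos ⟨i, mem_inter.2 ⟨h2, hi⟩⟩]
            · rw [if_neg h2]
              split_ifs <;> norm_num
          have h2 : ∑ b, z b * y b' * s b b' = y b' * ∑ b, z b * s b b' := by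
            rw [mul_sum]
            exact sum_congr rfl fun b _ => by ring
          rw [h2]
          have h3 := hz1 i
          nlinarith [hy0 b']
        have e4 : α ≤ ∑ b : B, ∑ b' : {b : B // z b = 0}, z b * y b' * t b b' := by
          rw [← hzs]
          apply sum_le_sum
          intro b _
          obtain ⟨j, hj⟩ := hY0 b
          have h1 : ∑ b' : {b : B // z b = 0}, y b' * c j b'.1 ≤
              ∑ b' : {b : B // z b = 0}, y b' * t b b' := by
            apply sum_le_sum
            intro b' _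
            apply mul_le_mul_of_nonneg_left _ (hy0 b')
            simp only [hc, t]
            by_cases h2 : j ∈ Y b'.1
            · rw [if_pos h2, if_pos ⟨j, mem_inter.2 ⟨hj, h2⟩⟩]
            · rw [if_neg h2]
              split_ifs <;> norm_num
          have h2 : ∑ b' : {b : B // z b = 0}, z b * y b' * t b b' =
              z b * ∑ b' : {b : B // z b = 0}, y b' * t b b' := by
            rw [mul_sum]
            exact sum_congr rfl fun b' _ => by ring
          rw [h2]
          have h3 := hy1 j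
          nlinarith [hz0 b]
        have e5 : (∑ b : B, ∑ b' : {b : B // z b = 0}, z b * y b' * s b b') +
            (∑ b : B, ∑ b' : {b : B // z b = 0}, z b * y b' * t b b') ≤
            ∑ b : B, ∑ b' : {b : B // z b = 0}, z b * y b' := by
          rw [← sum_add_distrib]
          apply sum_le_sum
          intro b _
          rw [← sum_add_distrib]
          exact sum_le_sum fun b' _ => e2 b b'
        linarith
      rw [lt_div_iff₀ hα0] at hβ
      nlinarith
    obtain ⟨v, hv0, hv1, hvs⟩ := hge
    set β : ℝ := ∑ j, v j with hβdef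
    have hpos : 0 < α / (α - 1) := by positivity
    have hβpos : 0 < β := lt_of_lt_of_le hpos hvs
    refine ⟨fun j => (α / (α - 1)) / β * v j, fun j => by
      have := hv0 j
      positivity, fun b hb => ?_, ?_⟩
    · have h1 : ∑ j, (α / (α - 1)) / β * v j * c j b = (α / (α - 1)) / β * ∑ j, v j * c j b := by
        rw [mul_sum]
        exact sum_congr rfl fun j _ => by ring
      rw [h1]
      have h2 : (α / (α - 1)) / β ≤ 1 := (div_le_one hβpos).2 hvs
      have h3 : 0 ≤ (α / (α - 1)) / β := by positivity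
      have h4 : 0 ≤ ∑ j, v j * c j b := sum_nonneg fun j _ => mul_nonneg (hv0 j) (hc0 j b)
      calc (α / (α - 1)) / β * ∑ j, v j * c j b ≤ 1 * 1 :=
            mul_le_mul h2 (hv1 b hb) h4 zero_le_one
        _ = 1 := one_mul 1
    · rw [← mul_sum, ← hβdef]
      field_simp
  obtain ⟨v, hv0, hv1, hvs⟩ := hv
  -- the sum of the nonnegative products
  have hS : 0 ≤ ∑ b, (1 - ∑ i, u i * a i b) * (1 - ∑ j, v j * c j b) := by
    apply sum_nonneg
    intro b _
    by_cases hb : z b = 0
    · exact mul_nonneg (by linarith [hu1 b]) (by linarith [hv1 b hb])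
    · have h1 := hcs b
      rcases mul_eq_zero.1 h1 with h | h
      · exact absurd h hb
      · rw [h, zero_mul]
  have hE : ∑ b, (1 - ∑ i, u i * a i b) * (1 - ∑ j, v j * c j b) = Fintype.card B -
      ∑ i, u i * ∑ b, a i b - ∑ j, v j * ∑ b, c j b + (∑ i, u i) * ∑ j, v j := by
    have h1 : ∀ b, (1 - ∑ i, u i * a i b) * (1 - ∑ j, v j * c j b) = 1 - ∑ i, u i * a i b -
        ∑ j, v j * c j b + (∑ i, u i * a i b) * ∑ j, v j * c j b := fun b => by ring
    simp only [h1]
    rw [sum_add_distrib, sum_sub_distrib, sum_sub_distrib]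
    have h2 : ∑ _b : B, (1 : ℝ) = Fintype.card B := by simp
    have h3 : ∑ b, ∑ i, u i * a i b = ∑ i, u i * ∑ b, a i b := by
      rw [sum_comm]
      exact sum_congr rfl fun i _ => by rw [mul_sum]
    have h4 : ∑ b, ∑ j, v j * c j b = ∑ j, v j * ∑ b, c j b := by
      rw [sum_comm]
      exact sum_congr rfl fun j _ => by rw [mul_sum]
    have h5 : ∑ b, (∑ i, u i * a i b) * ∑ j, v j * c j b = (∑ i, u i) * ∑ j, v j := by
      calc ∑ b, (∑ i, u i * a i b) * ∑ j, v j * c j b
          = ∑ b, ∑ i, ∑ j, (u i * v j) * (a i b * c j b) := by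
            refine sum_congr rfl fun b _ => ?_
            rw [sum_mul_sum]
            exact sum_congr rfl fun i _ => sum_congr rfl fun j _ => by ring
        _ = ∑ i, ∑ j, (u i * v j) * ∑ b, a i b * c j b := by
            rw [sum_comm]
            refine sum_congr rfl fun i _ => ?_
            rw [sum_comm]
            exact sum_congr rfl fun j _ => by rw [mul_sum]
        _ = ∑ i, ∑ j, u i * v j := by
            exact sum_congr rfl fun i _ => sum_congr rfl fun j _ => by rw [hac, mul_one]
        _ = (∑ i, u i) * ∑ j, v j := by rw [sum_mul_sum]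
    rw [h2, h3, h4, h5]
  have hR : k * α ≤ ∑ i, u i * ∑ b, a i b := by
    rw [hα, mul_sum]
    exact sum_le_sum fun i _ => by
      rw [mul_comm]
      exact mul_le_mul_of_nonneg_left (hk i) (hu0 i)
  have hC : l * (α / (α - 1)) ≤ ∑ j, v j * ∑ b, c j b := by
    rw [← hvs, mul_sum]
    exact sum_le_sum fun j _ => by
      rw [mul_comm]
      exact mul_le_mul_of_nonneg_left (hl j) (hv0 j)
  refine ⟨α - 1, hα0, ?_⟩
  rw [hE, ← hα, hvs] at hS
  have h6 : α / (α - 1) = 1 + 1 / (α - 1) := by
    field_simp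
    ring
  have h7 : α * (α / (α - 1)) = α + α / (α - 1) := by
    field_simp
    ring
  rw [← h6]
  have h8 : 1 + (α - 1) = α := by ring
  rw [h8]
  nlinarith

theorem ineq_partition {n : ℕ} (hn : 1 ≤ n) (k l : ℕ) (P : Finset (Finset (Fin n × Fin n)))
    (hP : IsPartition P) (hkl : Piercing k l P) :
    ∃ p : ℝ, 0 < p ∧ ((k : ℝ) - 1) * (1 + p) + ((l : ℝ) - 1) * (1 + 1 / p) ≤ P.card := by
  classical
  have : Nonempty (Fin n) := ⟨⟨0, hn⟩⟩
  obtain ⟨hbox, hex⟩ := hP
  choose X Y hX0 hY0 hX hY hB using hbox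
  obtain ⟨p, hp, h⟩ := ineq (I := Fin n) (J := Fin n) (B := ↥P) (fun b => X b.1 b.2)
    (fun b => Y b.1 b.2) inferInstance (by
      intro i j
      obtain ⟨B, hB1, hu⟩ := hex (i, j)
      have hmem : ∀ b : ↥P, (i ∈ X b.1 b.2 ∧ j ∈ Y b.1 b.2) ↔ (i, j) ∈ b.1 := by
        intro b
        have e := hB b.1 b.2
        constructor
        · intro h
          rw [e]
          exact mem_product.2 h
        · intro h
          rw [e] at h
          exact mem_product.1 h
      refine ⟨⟨B, hB1.1⟩, (hmem _).2 hB1.2, ?_⟩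
      intro b hb
      exact Subtype.ext (hu b.1 ⟨b.2, (hmem b).1 hb⟩))
    (fun b => hX0 b.1 b.2) (fun b => hY0 b.1 b.2) (fun b => hX b.1 b.2) (k : ℝ) (l : ℝ) (by
      intro i
      have h1 := hkl.1 i
      rw [card_filter] at h1
      have h2 : (k : ℝ) ≤ ∑ B ∈ P, if ∃ j, (i, j) ∈ B then (1 : ℝ) else 0 := by
        have h3 : ((k : ℕ) : ℝ) ≤ ((∑ B ∈ P, if ∃ j, (i, j) ∈ B then 1 else 0 : ℕ) : ℝ) := by
          exact_mod_cast h1
        refine h3.trans (le_of_eq ?_)
        push_cast
        rfl
      refine h2.trans (le_of_eq ?_)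
      rw [← sum_coe_sort P]
      refine sum_congr rfl fun b _ => ?_
      have h4 : (∃ j, (i, j) ∈ b.1) ↔ i ∈ X b.1 b.2 := by
        have e := hB b.1 b.2
        constructor
        · rintro ⟨j, hj⟩
          rw [e] at hj
          exact (mem_product.1 hj).1
        · intro h
          obtain ⟨j, hj⟩ := hY0 b.1 b.2
          refine ⟨j, ?_⟩
          rw [e]
          exact mem_product.2 ⟨h, hj⟩
      simp only [h4]) (by
      intro j
      have h1 := hkl.2 j
      rw [card_filter] at h1
      have h2 : (l : ℝ) ≤ ∑ B ∈ P, if ∃ i, (i, j) ∈ B then (1 : ℝ) else 0 := by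
        have h3 : ((l : ℕ) : ℝ) ≤ ((∑ B ∈ P, if ∃ i, (i, j) ∈ B then 1 else 0 : ℕ) : ℝ) := by
          exact_mod_cast h1
        refine h3.trans (le_of_eq ?_)
        push_cast
        rfl
      refine h2.trans (le_of_eq ?_)
      rw [← sum_coe_sort P]
      refine sum_congr rfl fun b _ => ?_
      have h4 : (∃ i, (i, j) ∈ b.1) ↔ j ∈ Y b.1 b.2 := by
        have e := hB b.1 b.2
        constructor
        · rintro ⟨i, hi⟩
          rw [e] at hi
          exact (mem_product.1 hi).2
        · intro h
          obtain ⟨i, hi⟩ := hX0 b.1 b.2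
          refine ⟨i, ?_⟩
          rw [e]
          exact mem_product.2 ⟨hi, h⟩
      simp only [h4]) inferInstance
  refine ⟨p, hp, ?_⟩
  rwa [Fintype.card_coe] at h

/-- the lower bound for rows and columns with different piercing numbers -/
theorem lower_general {n : ℕ} (hn : 1 ≤ n) (k l : ℕ) (hk : 1 ≤ k) (hl : 1 ≤ l)
    (P : Finset (Finset (Fin n × Fin n))) (hP : IsPartition P) (hkl : Piercing k l P) :
    (Real.sqrt ((k : ℝ) - 1) + Real.sqrt ((l : ℝ) - 1)) ^ 2 ≤ P.card := by
  obtain ⟨p, hp, h⟩ := ineq_partition hn k l P hP hkl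
  refine le_trans ?_ h
  have hk' : (0 : ℝ) ≤ (k : ℝ) - 1 := by
    have : (1 : ℝ) ≤ k := by exact_mod_cast hk
    linarith
  have hl' : (0 : ℝ) ≤ (l : ℝ) - 1 := by
    have : (1 : ℝ) ≤ l := by exact_mod_cast hl
    linarith
  set x := Real.sqrt ((k : ℝ) - 1) with hx
  set y := Real.sqrt ((l : ℝ) - 1) with hy
  have hx2 : x ^ 2 = (k : ℝ) - 1 := Real.sq_sqrt hk'
  have hy2 : y ^ 2 = (l : ℝ) - 1 := Real.sq_sqrt hl'
  rw [← hx2, ← hy2]
  have e : x ^ 2 * (1 + p) + y ^ 2 * (1 + 1 / p) - (x + y) ^ 2 = (x * p - y) ^ 2 / p := by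
    field_simp
    ring
  have h0 : 0 ≤ (x * p - y) ^ 2 / p := by positivity
  linarith

theorem lower {n : ℕ} (hn : 1 ≤ n) (k : ℕ) (hk : 1 ≤ k)
    (P : Finset (Finset (Fin n × Fin n))) (hP : IsPartition P) (hkl : Piercing k k P) :
    4 * (k - 1) ≤ P.card := by
  have h := lower_general hn k k hk hk P hP hkl
  have hk' : (0 : ℝ) ≤ (k : ℝ) - 1 := by
    have : (1 : ℝ) ≤ k := by exact_mod_cast hk
    linarith
  have e : (Real.sqrt ((k : ℝ) - 1) + Real.sqrt ((k : ℝ) - 1)) ^ 2 = 4 * ((k : ℝ) - 1) := by
    have := Real.sq_sqrt hk'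
    nlinarith
  rw [e] at h
  have h2 : ((4 * (k - 1) : ℕ) : ℝ) ≤ (P.card : ℝ) := by
    push_cast [Nat.cast_sub hk]
    exact h
  exact_mod_cast h2

/-! ### The construction -/

/-- The tall boxes (`Sum.inl`) and the wide boxes (`Sum.inr`); `K = k - 1`. -/
def bx (n K : ℕ) : Fin (2 * K) ⊕ Fin (2 * K) → Finset (Fin n × Fin n)
  | Sum.inl s => (univ.filter fun i : Fin n => (i.val < K ↔ s.val < K)) ×ˢ
      (univ.filter fun j : Fin n => min j.val (2 * K - 1) = s.val)
  | Sum.inr s => (univ.filter fun i : Fin n => min i.val (2 * K - 1) = s.val) ×ˢ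
      (univ.filter fun j : Fin n => ¬ (j.val < K ↔ s.val < K))

theorem mem_inl {n K : ℕ} (s : Fin (2 * K)) (i j : Fin n) : (i, j) ∈ bx n K (Sum.inl s) ↔
    (i.val < K ↔ s.val < K) ∧ min j.val (2 * K - 1) = s.val := by
  simp [bx]

theorem mem_inr {n K : ℕ} (s : Fin (2 * K)) (i j : Fin n) : (i, j) ∈ bx n K (Sum.inr s) ↔
    min i.val (2 * K - 1) = s.val ∧ ¬ (j.val < K ↔ s.val < K) := by
  simp [bx]

theorem exists_bx {n K : ℕ} (hK : 1 ≤ K) (i j : Fin n) : ∃! t, (i, j) ∈ bx n K t := by
  by_cases h : (i.val < K ↔ j.val < K)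
  · refine ⟨Sum.inl ⟨min j.val (2 * K - 1), by omega⟩, ?_, ?_⟩
    · show (i, j) ∈ bx n K (Sum.inl ⟨min j.val (2 * K - 1), by omega⟩)
      rw [mem_inl]
      refine ⟨?_, rfl⟩
      show i.val < K ↔ min j.val (2 * K - 1) < K
      omega
    · rintro (s | s) hs
      · rw [mem_inl] at hs
        congr 1
        exact Fin.ext hs.2.symm
      · rw [mem_inr] at hs
        exfalso
        omega
  · refine ⟨Sum.inr ⟨min i.val (2 * K - 1), by omega⟩, ?_, ?_⟩
    · show (i, j) ∈ bx n K (Sum.inr ⟨min i.val (2 * K - 1), by omega⟩)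
      rw [mem_inr]
      refine ⟨rfl, ?_⟩
      show ¬ (j.val < K ↔ min i.val (2 * K - 1) < K)
      omega
    · rintro (s | s) hs
      · rw [mem_inl] at hs
        exfalso
        omega
      · rw [mem_inr] at hs
        congr 1
        exact Fin.ext hs.1.symm

theorem bx_proper {n K : ℕ} (hK : 1 ≤ K) (hn : 2 * K ≤ n) (t : Fin (2 * K) ⊕ Fin (2 * K)) :
    IsProperBox (bx n K t) := by
  have h0 : 0 < n := by omega
  have hlast : n - 1 < n := by omega
  have h1 : 1 < n := by omega
  rcases t with s | s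
  · refine ⟨_, _, ?_, ?_, ?_, ?_, rfl⟩
    · by_cases hs : s.val < K
      · exact ⟨⟨0, h0⟩, by simp [hs]; omega⟩
      · exact ⟨⟨n - 1, hlast⟩, by simp [hs]; omega⟩
    · exact ⟨⟨s.val, by omega⟩, by simp; omega⟩
    · intro h
      by_cases hs : s.val < K
      · have h2 : (⟨n - 1, hlast⟩ : Fin n) ∈ (univ.filter fun i : Fin n =>
            (i.val < K ↔ s.val < K)) := by rw [h]; exact mem_univ _
        simp [hs] at h2
        omega
      · have h2 : (⟨0, h0⟩ : Fin n) ∈ (univ.filter fun i : Fin n =>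
            (i.val < K ↔ s.val < K)) := by rw [h]; exact mem_univ _
        simp [hs] at h2
        omega
    · intro h
      have h2 : (⟨0, h0⟩ : Fin n) ∈ (univ.filter fun j : Fin n =>
            min j.val (2 * K - 1) = s.val) := by rw [h]; exact mem_univ _
      have h3 : (⟨1, h1⟩ : Fin n) ∈ (univ.filter fun j : Fin n =>
            min j.val (2 * K - 1) = s.val) := by rw [h]; exact mem_univ _
      simp only [mem_filter, mem_univ, true_and] at h2 h3
      omega
  · refine ⟨_, _, ?_, ?_, ?_, ?_, rfl⟩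
    · exact ⟨⟨s.val, by omega⟩, by simp; omega⟩
    · by_cases hs : s.val < K
      · exact ⟨⟨n - 1, hlast⟩, by simp [hs]; omega⟩
      · exact ⟨⟨0, h0⟩, by simp [hs]; omega⟩
    · intro h
      have h2 : (⟨0, h0⟩ : Fin n) ∈ (univ.filter fun j : Fin n =>
            min j.val (2 * K - 1) = s.val) := by rw [h]; exact mem_univ _
      have h3 : (⟨1, h1⟩ : Fin n) ∈ (univ.filter fun j : Fin n =>
            min j.val (2 * K - 1) = s.val) := by rw [h]; exact mem_univ _
      simp only [mem_filter, mem_univ, true_and] at h2 h3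
      omega
    · intro h
      by_cases hs : s.val < K
      · have h2 : (⟨0, h0⟩ : Fin n) ∈ (univ.filter fun j : Fin n =>
            ¬ (j.val < K ↔ s.val < K)) := by rw [h]; exact mem_univ _
        simp [hs] at h2
        omega
      · have h2 : (⟨n - 1, hlast⟩ : Fin n) ∈ (univ.filter fun j : Fin n =>
            ¬ (j.val < K ↔ s.val < K)) := by rw [h]; exact mem_univ _
        simp [hs] at h2
        omega

theorem construction (n K : ℕ) (hK : 1 ≤ K) (hn : 2 * K ≤ n) :
    ∃ P : Finset (Finset (Fin n × Fin n)), IsPartition P ∧ Piercing (K + 1) (K + 1) P ∧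
      P.card = 4 * K := by
  classical
  have hinj : Function.Injective (bx n K) := by
    intro t t' h
    obtain ⟨X, Y, ⟨i, hi⟩, ⟨j, hj⟩, -, -, hB⟩ := bx_proper hK hn t
    have h1 : (i, j) ∈ bx n K t := by
      rw [hB]
      exact mem_product.2 ⟨hi, hj⟩
    have h2 : (i, j) ∈ bx n K t' := by rwa [← h]
    exact (exists_bx hK i j).unique h1 h2
  refine ⟨univ.image (bx n K), ⟨?_, ?_⟩, ⟨?_, ?_⟩, ?_⟩
  · intro B hB
    obtain ⟨t, -, rfl⟩ := mem_image.1 hB
    exact bx_proper hK hn t
  · rintro ⟨i, j⟩
    obtain ⟨t, ht, hu⟩ := exists_bx hK i j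
    refine ⟨bx n K t, ⟨mem_image_of_mem _ (mem_univ _), ht⟩, ?_⟩
    rintro B ⟨hB, hx⟩
    obtain ⟨t', -, rfl⟩ := mem_image.1 hB
    rw [hu t' hx]
  · intro i
    let e : Option (Fin K) → Fin (2 * K) ⊕ Fin (2 * K) := fun o => match o with
      | none => Sum.inr ⟨min i.val (2 * K - 1), by omega⟩
      | some r => Sum.inl (if i.val < K then ⟨r.val, by omega⟩ else ⟨r.val + K, by omega⟩)
    have he : Function.Injective e := by
      rintro (_ | r) (_ | r') h
      · rfl
      · simp [e] at h
      · simp [e] at h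
      · simp only [e, Sum.inl.injEq] at h
        by_cases hi : i.val < K
        · simp only [if_pos hi, Fin.mk.injEq] at h
          rw [Fin.ext h]
        · simp only [if_neg hi, Fin.mk.injEq] at h
          rw [Fin.ext (show r.val = r'.val by omega)]
    have hsub : (univ.image fun o => bx n K (e o)) ⊆
        (univ.image (bx n K)).filter fun B => ∃ j, (i, j) ∈ B := by
      intro B hB
      obtain ⟨o, -, rfl⟩ := mem_image.1 hB
      refine mem_filter.2 ⟨mem_image_of_mem _ (mem_univ _), ?_⟩
      rcases o with _ | r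
      · by_cases hi : i.val < K
        · refine ⟨⟨n - 1, by omega⟩, ?_⟩
          show (i, _) ∈ bx n K (Sum.inr ⟨min i.val (2 * K - 1), _⟩)
          rw [mem_inr]
          refine ⟨rfl, ?_⟩
          show ¬ (n - 1 < K ↔ min i.val (2 * K - 1) < K)
          omega
        · refine ⟨⟨0, by omega⟩, ?_⟩
          show (i, _) ∈ bx n K (Sum.inr ⟨min i.val (2 * K - 1), _⟩)
          rw [mem_inr]
          refine ⟨rfl, ?_⟩
          show ¬ (0 < K ↔ min i.val (2 * K - 1) < K)
          omega
      · have hr := r.isLt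
        by_cases hi : i.val < K
        · refine ⟨⟨r.val, by omega⟩, ?_⟩
          show (i, _) ∈ bx n K (Sum.inl (if i.val < K then ⟨r.val, _⟩ else ⟨r.val + K, _⟩))
          rw [if_pos hi, mem_inl]
          show (i.val < K ↔ r.val < K) ∧ min r.val (2 * K - 1) = r.val
          omega
        · refine ⟨⟨r.val + K, by omega⟩, ?_⟩
          show (i, _) ∈ bx n K (Sum.inl (if i.val < K then ⟨r.val, _⟩ else ⟨r.val + K, _⟩))
          rw [if_neg hi, mem_inl]
          show (i.val < K ↔ r.val + K < K) ∧ min (r.val + K) (2 * K - 1) = r.val + K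
          omega
    refine le_trans (le_of_eq ?_) (card_le_card hsub)
    have hcard := card_image_of_injective (univ : Finset (Option (Fin K))) (hinj.comp he)
    rw [Function.comp_def] at hcard
    rw [hcard]
    simp
  · intro j
    let e : Option (Fin K) → Fin (2 * K) ⊕ Fin (2 * K) := fun o => match o with
      | none => Sum.inl ⟨min j.val (2 * K - 1), by omega⟩
      | some r => Sum.inr (if j.val < K then ⟨r.val + K, by omega⟩ else ⟨r.val, by omega⟩)
    have he : Function.Injective e := by
      rintro (_ | r) (_ | r') h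
      · rfl
      · simp [e] at h
      · simp [e] at h
      · simp only [e, Sum.inr.injEq] at h
        by_cases hi : j.val < K
        · simp only [if_pos hi, Fin.mk.injEq] at h
          rw [Fin.ext (show r.val = r'.val by omega)]
        · simp only [if_neg hi, Fin.mk.injEq] at h
          rw [Fin.ext h]
    have hsub : (univ.image fun o => bx n K (e o)) ⊆
        (univ.image (bx n K)).filter fun B => ∃ i, (i, j) ∈ B := by
      intro B hB
      obtain ⟨o, -, rfl⟩ := mem_image.1 hB
      refine mem_filter.2 ⟨mem_image_of_mem _ (mem_univ _), ?_⟩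
      rcases o with _ | r
      · refine ⟨j, ?_⟩
        show (j, _) ∈ bx n K (Sum.inl ⟨min j.val (2 * K - 1), _⟩)
        rw [mem_inl]
        refine ⟨?_, rfl⟩
        show j.val < K ↔ min j.val (2 * K - 1) < K
        omega
      · have hr := r.isLt
        by_cases hi : j.val < K
        · refine ⟨⟨r.val + K, by omega⟩, ?_⟩
          show (_, j) ∈ bx n K (Sum.inr (if j.val < K then ⟨r.val + K, _⟩ else ⟨r.val, _⟩))
          rw [if_pos hi, mem_inr]
          show min (r.val + K) (2 * K - 1) = r.val + K ∧ ¬ (j.val < K ↔ r.val + K < K)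
          omega
        · refine ⟨⟨r.val, by omega⟩, ?_⟩
          show (_, j) ∈ bx n K (Sum.inr (if j.val < K then ⟨r.val + K, _⟩ else ⟨r.val, _⟩))
          rw [if_neg hi, mem_inr]
          show min r.val (2 * K - 1) = r.val ∧ ¬ (j.val < K ↔ r.val < K)
          omega
    refine le_trans (le_of_eq ?_) (card_le_card hsub)
    have hcard := card_image_of_injective (univ : Finset (Option (Fin K))) (hinj.comp he)
    rw [Function.comp_def] at hcard
    rw [hcard]
    simp
  · rw [card_image_of_injective _ hinj]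
    simp
    ring

theorem exists_partition (n k : ℕ) (hk : 2 ≤ k) (hn : k ≤ n) :
    ∃ P : Finset (Finset (Fin n × Fin n)), IsPartition P ∧ Piercing k k P := by
  classical
  have hne : ∀ i : Fin n, ({i} : Finset (Fin n)) ≠ univ := by
    intro i h
    have h1 := congrArg Finset.card h
    rw [card_singleton, card_univ, Fintype.card_fin] at h1
    omega
  refine ⟨univ.image fun x => {x}, ⟨?_, ?_⟩, ⟨?_, ?_⟩⟩
  · intro B hB
    obtain ⟨⟨i, j⟩, -, rfl⟩ := mem_image.1 hB
    refine ⟨{i}, {j}, singleton_nonempty _, singleton_nonempty _, hne i, hne j, ?_⟩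
    rw [singleton_product_singleton]
  · intro x
    refine ⟨{x}, ⟨mem_image_of_mem _ (mem_univ _), mem_singleton_self x⟩, ?_⟩
    rintro B ⟨hB, hx⟩
    obtain ⟨y, -, rfl⟩ := mem_image.1 hB
    rw [mem_singleton.1 hx]
  · intro i
    have hsub : (univ.image fun j : Fin n => ({(i, j)} : Finset (Fin n × Fin n))) ⊆
        (univ.image fun x : Fin n × Fin n => ({x} : Finset (Fin n × Fin n))).filter
          fun B => ∃ j, (i, j) ∈ B := by
      intro B hB
      obtain ⟨j, -, rfl⟩ := mem_image.1 hB
      exact mem_filter.2 ⟨mem_image_of_mem _ (mem_univ _), j, mem_singleton_self _⟩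
    refine le_trans ?_ (card_le_card hsub)
    rw [card_image_of_injective _ (fun j j' h => by simpa using h)]
    simpa using hn
  · intro j
    have hsub : (univ.image fun i : Fin n => ({(i, j)} : Finset (Fin n × Fin n))) ⊆
        (univ.image fun x : Fin n × Fin n => ({x} : Finset (Fin n × Fin n))).filter
          fun B => ∃ i, (i, j) ∈ B := by
      intro B hB
      obtain ⟨i, -, rfl⟩ := mem_image.1 hB
      exact mem_filter.2 ⟨mem_image_of_mem _ (mem_univ _), i, mem_singleton_self _⟩
    refine le_trans ?_ (card_le_card hsub)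
    rw [card_image_of_injective _ (fun i i' h => by simpa using h)]
    simpa using hn

theorem pBox_eq (n k : ℕ) (hk : 2 ≤ k) (hn : 2 * (k - 1) ≤ n) : pBox n k = 4 * (k - 1) := by
  obtain ⟨K, rfl⟩ : ∃ K, k = K + 1 := ⟨k - 1, by omega⟩
  have hK : 1 ≤ K := by omega
  simp only [Nat.add_sub_cancel] at hn ⊢
  obtain ⟨P, hP, hpi, hc⟩ := construction n K hK hn
  unfold pBox
  refine le_antisymm (Nat.sInf_le ⟨P, hP, hpi, hc⟩) ?_
  refine le_csInf ⟨_, P, hP, hpi, hc⟩ ?_
  rintro m ⟨Q, hQ, hq, rfl⟩
  have := lower (by omega) (K + 1) (by omega) Q hQ hq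
  simpa using this

/-- Let `k ≥ 2`.
(1) For every `n ≥ k` there are partitions of `[n]²` into proper boxes with the `k`-piercing
property.
(2) For every `n ≥ 2` every such partition has at least `4 (k - 1)` parts.
(3) `p_box(n, 2, k) = 4 (k - 1)` for all `n ≥ 2 (k - 1)`.
(4) `p_box(2, k) = 4 (k - 1)`: this is the limit of `p_box(n, 2, k)` as `n → ∞`.
More generally, (5) if in a partition of `[n]²` into proper boxes every line of one direction meets
at least `k` parts and every line of the other direction meets at least `l` parts, `k, l ≥ 1`, then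
there are at least `(√(k - 1) + √(l - 1))²` parts. -/
theorem result :
    (∀ k : ℕ, 2 ≤ k →
      (∀ n, k ≤ n → ∃ P : Finset (Finset (Fin n × Fin n)), IsPartition P ∧ Piercing k k P) ∧
      (∀ n, 2 ≤ n → ∀ P : Finset (Finset (Fin n × Fin n)), IsPartition P → Piercing k k P →
        4 * (k - 1) ≤ P.card) ∧
      (∀ n, 2 * (k - 1) ≤ n → pBox n k = 4 * (k - 1)) ∧
      Filter.Tendsto (fun n => pBox n k) Filter.atTop (nhds (4 * (k - 1)))) ∧
    ∀ n k l : ℕ, 2 ≤ n → 1 ≤ k → 1 ≤ l → ∀ P : Finset (Finset (Fin n × Fin n)),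
      IsPartition P → Piercing k l P →
        (Real.sqrt ((k : ℝ) - 1) + Real.sqrt ((l : ℝ) - 1)) ^ 2 ≤ P.card := by
  refine ⟨fun k hk => ⟨fun n hn => exists_partition n k hk hn,
    fun n hn P hP hpi => lower (by omega) k (by omega) P hP hpi,
    fun n hn => pBox_eq n k hk hn,
    tendsto_atTop_of_eventually_const (i₀ := 2 * (k - 1)) fun n hn => pBox_eq n k hk hn⟩,
    fun n k l hn hk hl P hP hpi => lower_general (by omega) k l hk hl P hP hpi⟩

end Pool.Agent.Results.MP_21d1af_co.PiercingNumber
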